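import Pool.Agent.V1157.PO.Defs
import Pool.Agent.V1157.KF.Defs

/-!
# Families of numerically trivial cycles: definitions
-/

open CategoryTheory AlgebraicGeometry

universe u v w

namespace Pool.Agent.V11106.DB

open Pool.Agent.H914 Pool.Agent.H914.VarClass Pool.Agent.H914.VarClass.Obj Pool.Agent.W492.BB
  Pool.Agent.TH133 Pool.Agent.V1157.KF Pool.Agent.V1157.PO

variable {k : Type u} [Field k] {𝒱 : VarClass k} {C : TheoryData.{u, v, 0} 𝒱 ℚ} {K : Type w}
  [Field K]

/-- A family of numerically trivial cycles of codimension `r` on the varieties of dimension `n`,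
stable under pull-backs along morphisms between varieties of dimension `n`. (For example: all
numerically trivial cycles; or the cycles which are homologically trivial for another Weil
cohomology theory.) -/
structure IsNumFamily (C : TheoryData.{u, v, 0} 𝒱 ℚ) (n r : ℕ) (R : ∀ X : 𝒱.Obj, C.A X → Prop) :
    Prop where
  num : ∀ {X : 𝒱.Obj} {x : C.A X}, X.dim = n → R X x → NumTrivial C r x
  pull : ∀ {X Y : 𝒱.Obj} (f : X ⟶ Y) {y : C.A Y}, X.dim = n → Y.dim = n → R Y y →
    R X (C.up f y)

variable (H : WeilTheoryData.{u, v, w} C K) (R : ∀ X : 𝒱.Obj, C.A X → Prop) (n : ℕ)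

/-- The cycles of the family `R` on the varieties of dimension `n` are homologically trivial. -/
def Vanishes : Prop := ∀ (X : 𝒱.Obj) (x : C.A X), X.dim = n → R X x → H.cl x = 0

/-- The cohomology classes of the cycles of the family `R` on a variety of dimension `n` span a
`K`-vector space of dimension at most `D`: any `D + 1` of these classes are linearly dependent. -/
def SpanAtMost (D : ℕ) : Prop := ∀ (X : 𝒱.Obj) (x : Fin (D + 1) → C.A X), X.dim = n →
  (∀ i, R X (x i)) → ∃ c : Fin (D + 1) → K, c ≠ 0 ∧ ∑ i, c i • H.cl (x i) = 0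

/-- Any two self-correspondences of degree zero act on the classes of the cycles of the family `R`
through commuting operators. -/
def Commuting : Prop := ∀ (X : 𝒱.Obj) (A B : C.A (X.prod X)) (x : C.A X), X.dim = n →
  C.Deg n A → C.Deg n B → R X x → H.cl (C.act A (C.act B x)) = H.cl (C.act B (C.act A x))

/-- The actions of any `d` self-correspondences of degree zero on the classes of the cycles of the
family `R` satisfy the multilinear polynomial identity `∑ c(σ) W_{σ(1)} W_{σ(2)} ⋯ W_{σ(d)} = 0`,
the sum over all permutations `σ`. -/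
def PolyIdentity (d : ℕ) (c : Equiv.Perm (Fin d) → K) : Prop :=
  ∀ (X : 𝒱.Obj) (W : Fin d → C.A (X.prod X)) (x : C.A X), X.dim = n → (∀ i, C.Deg n (W i)) →
    R X x → ∑ σ, c σ • H.cl (ops C (List.ofFn fun i => W (σ i)) x) = 0

end Pool.Agent.V11106.DB
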