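import Pool.Agent.V11106.DB.Defs
import Pool.Agent.V1157.PO.Main
import Pool.Agent.V1157.KF.Core

/-!
# Families of numerically trivial cycles: bounded families and polynomial identities
-/

open CategoryTheory AlgebraicGeometry

universe u v w

namespace Pool.Agent.V11106.DB

open Pool.Agent.H914 Pool.Agent.H914.VarClass Pool.Agent.H914.VarClass.Obj Pool.Agent.W492.BB
  Pool.Agent.W550.Corr Pool.Agent.TH133 Pool.Agent.Y148.BB Pool.Agent.V1157.KF
  Pool.Agent.V1157.PO
open Pool.Agent.V1157.RC (cog_gr push_pull_of)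

set_option linter.unusedSectionVars false

variable {k : Type u} [Field k] {𝒱 : VarClass k} {C : TheoryData.{u, v, 0} 𝒱 ℚ}
  [hC : IsChowProj C] {K : Type w} [Field K] {H : WeilTheoryData.{u, v, w} C K}
  [hH : IsWeilProj H] {S V X Y U : 𝒱.Obj} {n r : ℕ}

include hC

lemma push_pull_num {N : ℕ} {p : ℕ → (V ⟶ S)} {a : C.A S} {c κ : ℚ} (h : Pw C n N p a c κ)
    {i j : ℕ} (hi : i < N) (hj : j < N) (hij : i ≠ j) {x : C.A S}
    (hx : NumTrivial C r x) : C.push (p j) (C.pull (p i) x) = 0 := by
  rw [← C.act_graph, ← C.act_cograph, ← C.act_comp, cog_gr, h.pq i hi j hj hij]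
  exact act_pow_num h.dimS h.ha hx c

lemma cl_smul_zero (H : WeilTheoryData.{u, v, w} C K) {q : ℚ} (hq : q ≠ 0) {x : C.A X}
    (hx : H.cl (q • x) = 0) : H.cl x = 0 := by
  have h3 : x = q⁻¹ • (q • x) := by rw [smul_smul, inv_mul_cancel₀ hq, one_smul]
  rw [h3, Algebra.smul_def, map_mul, hx, mul_zero]

/-- Applying the staircase operators in an order different from the natural one gives zero. -/
lemma ops_num_ne {d : ℕ} {p : ℕ → (V ⟶ S)} {a : C.A S} {c κ : ℚ}
    (h : Pw C n (d + 1) p a c κ) {x : C.A S} (hx : NumTrivial C r x) (l : List (Fin d)) (e : ℕ)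
    (he : e ≤ d) (hl : ¬ (∀ q : ℕ, ∀ hq : q < l.length, (l[q] : ℕ) = e + q)) :
    ops C (l.map fun i : Fin d => mt C (p i) (p (i + 1))) (C.pull (p e) x) = 0 := by
  induction l generalizing e with
  | nil => exact absurd (fun q hq => absurd hq (by simp)) hl
  | cons i l ih =>
    rw [List.map_cons, ops_cons, act_mt]
    by_cases him : (i : ℕ) = e
    · subst him
      rw [push_pull_of (h.pp i (by omega)), map_smul, ops_smul, ih (i + 1) (by omega), smul_zero]
      intro hcon
      apply hl
      intro q hq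
      cases q with
      | zero => rfl
      | succ q =>
        rw [List.getElem_cons_succ, hcon q (by simpa using hq)]
        ring
    · rw [push_pull_num h (i := e) (j := i) (by omega) (by have := i.2; omega)
        (Ne.symm him) hx, map_zero, ops_zero]

variable {R : ∀ X : 𝒱.Obj, C.A X → Prop}

include hH

/-- Bounded families vanish. -/
theorem of_bounded (hR : IsNumFamily C n r R)
    (hP : ∀ (S : 𝒱.Obj) (N : ℕ), S.dim = n → HasPower C n N S) {D : ℕ}
    (hD : SpanAtMost H R n D) : Vanishes H R n := by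
  intro X x hX hx
  obtain ⟨V, p, a, c, κ, h⟩ := exists_pw hX (hP X (D + 1) hX)
  obtain ⟨b, hb, hb2⟩ := hD V (fun i => C.pull (p i) x) h.dimV
    (fun i => hR.pull (p i) h.dimV h.dimS hx)
  obtain ⟨i, hi⟩ : ∃ i, b i ≠ 0 := by
    by_contra hcon
    push Not at hcon
    exact hb (funext hcon)
  have h1 := congrArg (H.push (p i)) hb2
  rw [map_sum, map_zero, Finset.sum_eq_single i] at h1
  · rw [map_smul, ← H.cl_push, push_pull_of (h.pp i i.2)] at h1
    exact cl_smul_zero H h.hκ ((smul_eq_zero.1 h1).resolve_left hi)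
  · intro j _ hj
    rw [map_smul, ← H.cl_push, push_pull_num h j.2 i.2 (fun e => hj (Fin.ext e))
      (hR.num hX hx), map_zero, smul_zero]
  · intro h0
    exact absurd (Finset.mem_univ i) h0

/-- A polynomial identity implies that the family vanishes. -/
theorem of_identity (hR : IsNumFamily C n r R)
    (hP : ∀ (S : 𝒱.Obj) (N : ℕ), S.dim = n → HasPower C n N S) {d : ℕ}
    {c : Equiv.Perm (Fin d) → K} (hc : c ≠ 0) (hI : PolyIdentity H R n d c) :
    Vanishes H R n := by
  intro X x hX hx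
  obtain ⟨V, p, a, b, κ, h⟩ := exists_pw hX (hP X (d + 1) hX)
  obtain ⟨σ, hσ⟩ : ∃ σ, c σ ≠ 0 := by
    by_contra hcon
    push Not at hcon
    exact hc (funext hcon)
  have h1 := hI V (fun i => mt C (p (σ⁻¹ i)) (p (σ⁻¹ i + 1))) (C.pull (p 0) x) h.dimV
    (fun i => mt_mem h.dimS h.dimV _ _) (hR.pull (p 0) h.dimV h.dimS hx)
  have e0 : ∀ τ : Equiv.Perm (Fin d), (List.ofFn fun i => mt C (p (σ⁻¹ (τ i)))
      (p (σ⁻¹ (τ i) + 1))) = (List.ofFn fun i => (σ⁻¹ * τ) i).map fun i : Fin d =>
        mt C (p i) (p (i + 1)) := by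
    intro τ
    rw [List.map_ofFn]
    rfl
  rw [Finset.sum_eq_single σ] at h1
  · rw [e0, inv_mul_cancel, h.ops_stair x d 0 (by omega) _ (by simp) (by intro q hq; simp)] at h1
    have h2 := cl_smul_zero H (pow_ne_zero _ h.hκ) ((smul_eq_zero.1 h1).resolve_left hσ)
    have h4 := push_pull_of (h.pp d (by omega)) x
    have h5 : H.cl (κ • x) = 0 := by rw [← h4, H.cl_push, h2, map_zero]
    exact cl_smul_zero H h.hκ h5
  · intro τ _ hτ
    rw [e0, ops_num_ne h (hR.num hX hx) _ 0 (by omega), map_zero, smul_zero]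
    intro hcon
    apply hτ
    have h3 : σ⁻¹ * τ = 1 := by
      ext i
      have := hcon i (by simp)
      simpa using this
    rw [inv_mul_eq_one] at h3
    exact h3.symm
  · intro h0
    exact absurd (Finset.mem_univ σ) h0

lemma cl_act_zero {Γ : C.A (X.prod Y)} {x : C.A X} (hx : H.cl x = 0) :
    H.cl (C.act Γ x) = 0 := by
  rw [cl_act H Γ x, hx, H.act_map_zero]

lemma identity_of_comm (h : Commuting H R n) :
    PolyIdentity H R n 2 (fun σ => if σ = 1 then 1 else -1) := by
  intro X W x hX hW hx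
  have h1 := h X (W 1) (W 0) x hX (hW 1) (hW 0) hx
  have h2 : (Finset.univ : Finset (Equiv.Perm (Fin 2))) = {1, Equiv.swap 0 1} := by decide
  have h3 : (1 : Equiv.Perm (Fin 2)) ≠ Equiv.swap 0 1 := by decide
  rw [h2, Finset.sum_pair h3]
  beta_reduce
  rw [if_pos rfl, if_neg h3.symm]
  simp only [List.ofFn_succ, List.ofFn_zero, Equiv.Perm.one_apply, one_smul, neg_smul,
    Equiv.swap_apply_left, Fin.succ_zero_eq_one, Equiv.swap_apply_right, ops, List.foldl_cons,
    List.foldl_nil, ← sub_eq_add_neg]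
  exact sub_eq_zero.2 h1

/-- **Equivalent forms of the vanishing of a family of numerically trivial cycles.** -/
theorem main (hR : IsNumFamily C n r R)
    (hP : ∀ (S : 𝒱.Obj) (N : ℕ), S.dim = n → HasPower C n N S) :
    List.TFAE [Vanishes H R n, ∃ D, SpanAtMost H R n D, Commuting H R n,
      ∃ (d : ℕ) (c : Equiv.Perm (Fin d) → K), c ≠ 0 ∧ PolyIdentity H R n d c] := by
  tfae_have 1 → 2 := by
    intro h
    refine ⟨0, fun X t hX ht => ⟨fun _ => 1, ?_, ?_⟩⟩
    · intro h0
      exact one_ne_zero (congrFun h0 0)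
    · apply Finset.sum_eq_zero
      intro i _
      rw [h X _ hX (ht i), smul_zero]
  tfae_have 2 → 1 := fun ⟨D, hD⟩ => of_bounded hR hP hD
  tfae_have 1 → 3 := by
    intro h X A B t hX hA hB ht
    have h0 := h X t hX ht
    rw [cl_act_zero (cl_act_zero h0), cl_act_zero (cl_act_zero h0)]
  tfae_have 3 → 4 := by
    intro h
    refine ⟨2, fun σ => if σ = 1 then 1 else -1, ?_, identity_of_comm h⟩
    intro h0
    have := congrFun h0 1
    simp at this
  tfae_have 4 → 1 := fun ⟨d, c, hc, hI⟩ => of_identity hR hP hc hI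
  tfae_finish

omit hH in
/-- The family of all numerically trivial cycles. -/
lemma isNumFamily_num (H' : WeilTheoryData.{u, v, w} C K) [IsWeilProj H'] :
    IsNumFamily C n r (fun _ x => NumTrivial C r x) where
  num _ h := h
  pull _ _ hX hY h := num_pull H' hY hX h

end Pool.Agent.V11106.DB
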